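import Mathlib
import Pool.Agent.Q112.Rack

/-!
# A rack bialgebra that is not a Yetter-Drinfel'd rack

`C = span(1, h, u, v, b)` with `h, u, v` primitive, `Δ(b) = b ⊗ 1 + 1 ⊗ b + u ⊗ v`, and
`h ◁ u = u`, `h ◁ v = v`, `u ◁ h = -u`, `v ◁ h = -v`, `b ◁ h = -2b`, all other products of
elements of `{h, u, v, b}` equal to `0`.
-/

universe u

namespace Pool.Agent.Results.MP_abbe90_al.NotYetterDrinfeld

open Pool.Agent.Q112.Rack

/-- Over every field `k` there is a (finite-dimensional) rack bialgebra that cannot be expressed as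
a Yetter-Drinfel'd rack over any bialgebra. -/
theorem result (k : Type) [Field k] : ∃ (C : Type) (_ : AddCommGroup C) (_ : Module k C)
    (_ : Coalgebra k C) (R : RackBialgebra k C), FiniteDimensional k C ∧
      ∀ (H : Type u) [Ring H] [Bialgebra k H], IsEmpty (YetterDrinfeldRack R H) :=
  main k

end Pool.Agent.Results.MP_abbe90_al.NotYetterDrinfeld
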